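import Pool.Agent.L5helper74.RM.Surf

/-!
# Generic negatively curved metrics: arithmetic of the levels and the form factor at late times

Let `(M, g)` be a closed surface with a continuous Riemannian metric and isothermal charts (every
smooth metric on a surface has such charts), `B` a Baire topological vector space with a continuous
linear map `ι` to `C(M)` with dense range, for instance the Fréchet space of all smooth functions
with its `C^∞` topology, and `U` an open subset of `B`, for instance the set of all `b` for which the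
metric `exp b · g` has negative curvature. For `b ∈ U` let `x 0 ≤ x 1 ≤ ...` be the unfolded levels
of `exp (ι b) · g`: the eigenvalues of the Laplacian times `area / (4 π)`.

For generic `b ∈ U`:

1. the tuples `(x (p 0), ..., x (p (n-1)))` of positive levels of different indices avoid a given
   meagre subset `N` of `ℝ^n`;
2. the positive levels are algebraically independent over the rationals;
3. for every finite set `A` of positive levels the form factor
   `K_A(t) = |∑_{k ∈ A} exp(2 π i t x_k)|² / |A|` has late time moments: the average over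
   `0 ≤ t ≤ T` of `K_A(t) ^ m` converges for `T → ∞`, and the limit is between
   `m! |A| (|A| - 1) ⋯ (|A| - m + 1) / |A|^m` and `m!`. So the mean is one, the value of the plateau of
   the form factor of the GOE, the variance tends to one and all moments tend to those of the
   exponential distribution as `|A| → ∞`, uniformly in the place of `A` in the spectrum;
4. quantum recurrences: for every sequence `ψ q > 0`, as fast decreasing as we like, and every `n`
   there are arbitrarily large integral times `q` at which `q x_0, ..., q x_n` are all closer than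
   `ψ q` to integers, so that `K_A(q)` is as close as we like to its maximal value `|A|`; hence the
   averaging in 3 cannot be omitted.
-/

set_option autoImplicit false

open Set Filter Topology MeasureTheory
open scoped Real
open Pool.Agent.Y262.QE

noncomputable section

namespace Pool.Agent.Results.MP_a825e8_mp.LateTimeFormFactor

/-- `u 0, u 1, ...` is an orthonormal basis of `L² (μ)` which consists of eigenfunctions of the
Laplacian of the surface `D` with the area `μ`; the eigenvalues `lam 0 ≤ lam 1 ≤ ...` are ordered -/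
structure IsEigenbasis {M : Type} [MeasurableSpace M] (D : Data M) (μ : Measure M)
    (u : ℕ → M → ℝ) (lam : ℕ → ℝ) : Prop where
  eig : ∀ j, D.IsEig μ (lam j) (u j)
  mono : Monotone lam
  orth : ∀ i j, ∫ x, u i x * u j x ∂μ = if i = j then 1 else 0
  total : ∀ f : M → ℝ, MemLp f 2 μ → (∀ j, ∫ x, f x * u j x ∂μ = 0) → f =ᵐ[μ] 0

/-- the surface with the metric `exp φ · g` -/
def surf {M : Type} [TopologicalSpace M] (D : Data M) (φ : C(M, ℝ)) : Data M :=
  D.conf fun x => Real.exp (φ x)

/-- the area of the metric `exp φ · g` -/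
def area {M : Type} [TopologicalSpace M] [MeasurableSpace M] (μ : Measure M) (φ : C(M, ℝ)) :
    Measure M :=
  wm μ fun x => Real.exp (φ x)

/-- all the charts of the surface are isothermal: in the chart `i` the metric at `z` is
`‖D.A i z v‖ ²`, and it is a multiple of the flat metric `‖v‖ ²` -/
def Isothermal {M : Type} (D : Data M) : Prop :=
  ∀ i, ∀ z ∈ D.T i, ∃ c : ℝ, ∀ v, ‖D.A i z v‖ = c * ‖v‖

/-- `x` is the sequence of the unfolded levels of the metric `exp φ · g`: the eigenvalues, listed
with multiplicity, times the total area divided by `4 π` -/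
def IsUnfolded {M : Type} [TopologicalSpace M] [MeasurableSpace M] (D : Data M) (μ : Measure M)
    (φ : C(M, ℝ)) (x : ℕ → ℝ) : Prop :=
  ∃ (u : ℕ → M → ℝ) (lam : ℕ → ℝ), IsEigenbasis (surf D φ) (area μ φ) u lam ∧
    ∀ k, x k = (area μ φ).real univ / (4 * π) * lam k

/-- the form factor at the time `t` of the levels with indices in `A` -/
def K (x : ℕ → ℝ) (A : Finset ℕ) (t : ℝ) : ℝ :=
  ‖∑ k ∈ A, Complex.exp (2 * π * t * x k * Complex.I)‖ ^ 2 / A.card

theorem result (M : Type) [MetricSpace M] [CompactSpace M] [MeasurableSpace M] [BorelSpace M]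
    [Nonempty M] (μ : Measure M) (D : Data M) (hD : D.IsSurf μ) (hiso : Isothermal D)
    (B : Type) [AddCommGroup B] [Module ℝ B] [TopologicalSpace B] [IsTopologicalAddGroup B]
    [ContinuousSMul ℝ B] [BaireSpace B] (ι : B →L[ℝ] C(M, ℝ)) (hι : DenseRange ι)
    (U : Set B) (hU : IsOpen U) :
    -- the unfolded levels exist, are unique and have mean spacing one
    (∀ φ : C(M, ℝ), (surf D φ).IsSurf (area μ φ) ∧ ∃ x, IsUnfolded D μ φ x ∧
      (∀ y, IsUnfolded D μ φ y → y = x) ∧
      Tendsto (fun T : ℝ => ({k : ℕ | x k ≤ T}.ncard : ℝ) / T) atTop (𝓝 1)) ∧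
    -- tuples of levels avoid meagre sets
    (∀ (n : ℕ) (N : Set (Fin n → ℝ)), IsMeagre N → ∀ᶠ b : U in residual U, ∀ x,
      IsUnfolded D μ (ι (b : B)) x → ∀ p : Fin n → ℕ, Function.Injective p →
        (∀ l, 0 < x (p l)) → x ∘ p ∉ N) ∧
    -- algebraic independence and moments of the form factor
    (∀ᶠ b : U in residual U, ∀ x, IsUnfolded D μ (ι (b : B)) x →
      (AlgebraicIndependent ℚ fun k : {k : ℕ // 0 < x k} => x k) ∧
      ∀ A : Finset ℕ, (∀ k ∈ A, 0 < x k) → ∀ m : ℕ, ∃ L : ℝ,
        Tendsto (fun T : ℝ => (∫ t in (0 : ℝ)..T, K x A t ^ m) / T) atTop (𝓝 L) ∧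
        m.factorial * A.card.descFactorial m / (A.card : ℝ) ^ m ≤ L ∧ L ≤ m.factorial) ∧
    -- recurrences
    ∀ ψ : ℕ → ℝ, (∀ q, 0 < ψ q) → ∀ᶠ b : U in residual U, ∀ x, IsUnfolded D μ (ι (b : B)) x →
      ∀ n : ℕ, ∃ᶠ q : ℕ in atTop, ∀ k ≤ n, |q * x k - round (q * x k)| < ψ q := by
  have hbr : ∀ {φ : C(M, ℝ)} {x : ℕ → ℝ}, IsUnfolded D μ φ x →
      Pool.Agent.Results.MP_a825e8_mp.SurfacesLimitStatistics.IsUnfolded D μ φ x := by
    rintro φ x ⟨u, lam, hu, hx⟩
    exact ⟨u, lam, ⟨hu.eig, hu.mono, hu.orth, hu.total⟩, hx⟩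
  have hbr' : ∀ {φ : C(M, ℝ)} {x : ℕ → ℝ},
      Pool.Agent.Results.MP_a825e8_mp.SurfacesLimitStatistics.IsUnfolded D μ φ x →
      IsUnfolded D μ φ x := by
    rintro φ x ⟨u, lam, hu, hx⟩
    exact ⟨u, lam, ⟨hu.eig, hu.mono, hu.orth, hu.total⟩, hx⟩
  have hres : ∀ {P : B → Prop}, (∀ᶠ b in residual B, P b) → ∀ᶠ b : U in residual U, P (b : B) := by
    intro P h
    have h1 : IsMeagre {b | ¬ P b} := by
      show {b | ¬ P b}ᶜ ∈ residual B
      filter_upwards [h] with b hb hb'
      exact hb' hb
    have h2 := h1.preimage_of_isOpenMap continuous_subtype_val hU.isOpenMap_subtype_val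
    have h3 : (Subtype.val ⁻¹' {b | ¬ P b} : Set U)ᶜ ∈ residual U := h2
    filter_upwards [h3] with b hb
    by_contra hb'
    exact hb hb'
  have hav := Pool.Agent.L5helper74.RM.avoid M μ D hD hiso B ι hι
  have hind : ∀ {x : ℕ → ℝ}, (∀ n (p : Fin n → ℕ), Function.Injective p → (∀ l, 0 < x (p l)) →
      x ∘ p ∉ {y : Fin n → ℝ | ∃ P : MvPolynomial (Fin n) ℚ, P ≠ 0 ∧ MvPolynomial.aeval y P = 0}) →
      AlgebraicIndependent ℚ fun k : {k : ℕ // 0 < x k} => x k :=
    fun h => Pool.Agent.L5helper74.RM.indep_of h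
  refine ⟨fun φ => ?_, fun n N hN => ?_, ?_, fun ψ hψ => ?_⟩
  · obtain ⟨h1, x, h2, h3, h4⟩ := Pool.Agent.L5helper74.RM.basic M μ D hD φ
    exact ⟨h1, x, hbr' h2, fun y hy => h4 y (hbr hy), h3⟩
  · refine hres (P := fun b => ∀ x, IsUnfolded D μ (ι b) x → ∀ p : Fin n → ℕ,
      Function.Injective p → (∀ l, 0 < x (p l)) → x ∘ p ∉ N) ?_
    filter_upwards [hav n N hN] with b hb x hx
    exact hb x (hbr hx)
  · refine hres (P := fun b => ∀ x, IsUnfolded D μ (ι b) x →
      (AlgebraicIndependent ℚ fun k : {k : ℕ // 0 < x k} => x k) ∧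
      ∀ A : Finset ℕ, (∀ k ∈ A, 0 < x k) → ∀ m : ℕ, ∃ L : ℝ,
        Tendsto (fun T : ℝ => (∫ t in (0 : ℝ)..T, K x A t ^ m) / T) atTop (𝓝 L) ∧
        m.factorial * A.card.descFactorial m / (A.card : ℝ) ^ m ≤ L ∧ L ≤ m.factorial) ?_
    have h1 : ∀ᶠ b in residual B, ∀ n : ℕ, ∀ x, IsUnfolded D μ (ι b) x →
        ∀ p : Fin n → ℕ, Function.Injective p → (∀ l, 0 < x (p l)) →
        x ∘ p ∉ {y : Fin n → ℝ | ∃ P : MvPolynomial (Fin n) ℚ,
          P ≠ 0 ∧ MvPolynomial.aeval y P = 0} := by
      rw [eventually_countable_forall]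
      intro n
      filter_upwards [hav n _ (Pool.Agent.L5helper74.RM.meagre_poly n)] with b hb x hx
      exact hb x (hbr hx)
    filter_upwards [h1] with b hb x hx
    have h2 := hind fun n => hb n x hx
    exact ⟨h2, fun A hA m =>
      Pool.Agent.L5helper74.RM.moments (Pool.Agent.L5helper74.RM.ind_of_alg h2 hA) m⟩
  · refine hres (P := fun b => ∀ x, IsUnfolded D μ (ι b) x →
      ∀ n : ℕ, ∃ᶠ q : ℕ in atTop, ∀ k ≤ n, |q * x k - round (q * x k)| < ψ q) ?_
    have h1 : ∀ᶠ b in residual B, ∀ n : ℕ, ∀ x, IsUnfolded D μ (ι b) x →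
        ∀ p : Fin n → ℕ, Function.Injective p → (∀ l, 0 < x (p l)) →
        x ∘ p ∉ {y : Fin n → ℝ | ¬ ∃ᶠ q : ℕ in atTop, ∀ l, |q * y l - round (q * y l)| < ψ q} := by
      rw [eventually_countable_forall]
      intro n
      filter_upwards [hav n _ (Pool.Agent.L5helper74.RM.meagre_rec ψ hψ n)] with b hb x hx
      exact hb x (hbr hx)
    filter_upwards [h1] with b hb x hx n
    have hnn : ∀ k, 0 ≤ x k := Pool.Agent.L5helper74.RM.nonneg M μ D hD (hbr hx)
    -- the positive levels among the first ones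
    obtain ⟨A, hA⟩ : ∃ A : Finset ℕ, A = (Finset.range (n + 1)).filter fun k => 0 < x k := ⟨_, rfl⟩
    have hA' : ∀ k ∈ A, 0 < x k := by
      intro k hk
      rw [hA, Finset.mem_filter] at hk
      exact hk.2
    have h2 := hb A.card x hx (fun l => A.orderEmbOfFin rfl l)
      (A.orderEmbOfFin rfl).injective (fun l => hA' _ (A.orderEmbOfFin_mem rfl l))
    rw [not_not] at h2
    refine h2.mono fun q hq k hk => ?_
    by_cases hk0 : 0 < x k
    · have hkA : k ∈ A := by
        rw [hA, Finset.mem_filter, Finset.mem_range]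
        exact ⟨by omega, hk0⟩
      have hr : k ∈ range (A.orderEmbOfFin rfl) := by
        rw [Finset.range_orderEmbOfFin]
        exact hkA
      obtain ⟨l, hl⟩ := hr
      have := hq l
      simp only [Function.comp_apply] at this
      rw [← hl]
      exact this
    · have : x k = 0 := le_antisymm (not_lt.1 hk0) (hnn k)
      rw [this]
      simpa using hψ q

end Pool.Agent.Results.MP_a825e8_mp.LateTimeFormFactor
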