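import Pool.Agent.L5helper74.RJ.Surf
import Pool.Agent.L5helper74.LR.Top
import Pool.Agent.L5helper74.QR.Main8
import Pool.Agent.L5helper74.QR.Wq3
import Pool.Agent.L5helper74.QR.Ae

/-!
# Random metrics: level repulsion with the exact law of the GOE

Let `(M, g)` be a closed connected surface with a continuous Riemannian metric and isothermal charts
(every smooth metric on a surface has such charts). Let `f 0, f 1, ...` be continuous functions
whose span is dense in `C (M)` and let `ξ 0, ξ 1, ...` be independent random variables with bounded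
continuous densities such that the series `φ = ∑ ξ k · f k` converges uniformly almost surely (for
instance the Karhunen-Loève series of a nondegenerate Gaussian random function). Let
`x 0 < x 1 ≤ x 2 ≤ ...` be the unfolded levels of the random metric `exp φ · g`.

The levels repel each other quadratically, as the eigenvalues of the GOE: for every `l` and every
compact set `K` of functions `P (φ ∈ K, x (l + 1) - x l ≤ s) ≤ C s ²` for all `s > 0`, whatever the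
multiplicities of the levels of the metrics in `K` are. Moreover there is an open set `O` which
contains `K` such that the law of the gap `x (l + 1) - x l` on `O` (that is, weighted by any
bounded continuous function `χ ≥ 0` of the metric which vanishes outside `O`), rescaled by `s → 0`
and divided by `s ²`, converges to `c y dy` with a finite constant `c`, which is positive if `χ`
is positive at some metric in the support with a double level `x l = x (l + 1)`. If the `ξ k` are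
bounded and `∑ ‖f k‖ < ∞`, this holds for the set `O` of all functions, so that
`P (x (l + 1) - x l ≤ s) = (c / 2 + o (1)) s ²`.

Near a metric with a level of multiplicity `m + 1` the joint law of the `m` gaps of this level,
rescaled by `s → 0`, is exactly the law of the gaps of the GOE: its density is a constant times the
Vandermonde determinant `∏ (y j - y i)`, if the products of the eigenfunctions satisfy no linear
relation except multiples of the trace. For double and triple levels this always holds: two or three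
eigenfunctions of one eigenvalue on a surface satisfy no homogeneous quadratic relation (for four
this fails, as flat tori show).

The proof of the quadratic bound is a multiscale analysis of the effective matrix of a cluster of
levels. It shows that the small gaps with a third level nearby do not contribute, so that the
asymptotics near `K` follow from the local law at the double levels.
-/

set_option autoImplicit false
set_option synthInstance.maxHeartbeats 400000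

open Set Filter Topology MeasureTheory ProbabilityTheory
open scoped Real ENNReal
open Pool.Agent.Y262.QE

noncomputable section

namespace Pool.Agent.Results.MP_a825e8_mp.LevelRepulsion

/-- `u 0, u 1, ...` is an orthonormal basis of `L² (μ)` which consists of eigenfunctions of the
Laplacian of the surface `D` with the area `μ`; the eigenvalues `lam 0 ≤ lam 1 ≤ ...` are ordered -/
structure IsEigenbasis {M : Type} [MeasurableSpace M] (D : Data M) (μ : Measure M)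
    (u : ℕ → M → ℝ) (lam : ℕ → ℝ) : Prop where
  eig : ∀ j, D.IsEig μ (lam j) (u j)
  mono : Monotone lam
  orth : ∀ i j, ∫ x, u i x * u j x ∂μ = if i = j then 1 else 0
  total : ∀ f : M → ℝ, MemLp f 2 μ → (∀ j, ∫ x, f x * u j x ∂μ = 0) → f =ᵐ[μ] 0

/-- the surface with the metric `exp φ · g` -/
def surf {M : Type} [TopologicalSpace M] (D : Data M) (φ : C(M, ℝ)) : Data M :=
  D.conf fun x => Real.exp (φ x)

/-- the area of the metric `exp φ · g` -/
def area {M : Type} [TopologicalSpace M] [MeasurableSpace M] (μ : Measure M) (φ : C(M, ℝ)) :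
    Measure M :=
  wm μ fun x => Real.exp (φ x)

/-- all the charts of the surface are isothermal: in the chart `i` the metric at `z` is
`‖D.A i z v‖ ²`, and it is a multiple of the flat metric `‖v‖ ²` -/
def Isothermal {M : Type} (D : Data M) : Prop :=
  ∀ i, ∀ z ∈ D.T i, ∃ c : ℝ, ∀ v, ‖D.A i z v‖ = c * ‖v‖

/-- `x` is the sequence of the unfolded levels of the metric `exp φ · g`: the eigenvalues, listed
with multiplicity, times the total area divided by `4 π` -/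
def IsUnfolded {M : Type} [TopologicalSpace M] [MeasurableSpace M] (D : Data M) (μ : Measure M)
    (φ : C(M, ℝ)) (x : ℕ → ℝ) : Prop :=
  ∃ (u : ℕ → M → ℝ) (lam : ℕ → ℝ), IsEigenbasis (surf D φ) (area μ φ) u lam ∧
    ∀ k, x k = (area μ φ).real univ / (4 * π) * lam k

/-- `x l = ... = x (l + m)` is a level of multiplicity `m + 1` -/
def IsCluster (x : ℕ → ℝ) (l m : ℕ) : Prop :=
  ∀ j, x j = x l ↔ l ≤ j ∧ j ≤ l + m

/-- the products of the eigenfunctions of the levels `l, ..., l + m` satisfy no linear relation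
whose matrix has trace zero -/
def Free {M : Type} [TopologicalSpace M] [MeasurableSpace M] (D : Data M) (μ : Measure M)
    (φ : C(M, ℝ)) (l m : ℕ) : Prop :=
  ∃ (u : ℕ → M → ℝ) (lam : ℕ → ℝ), IsEigenbasis (surf D φ) (area μ φ) u lam ∧
    ∀ S : Matrix (Fin (m + 1)) (Fin (m + 1)) ℝ, S.IsSymm → S.trace = 0 →
      (∀ᵐ p ∂μ, ∑ i, ∑ j, S i j * (u (l + i) p * u (l + j) p) = 0) → S = 0

/-- the gaps `x (l + 1) - x l, ..., x (l + m) - x l` -/
def gaps (x : ℕ → ℝ) (l m : ℕ) : Fin m → ℝ := fun i => x (l + (i + 1)) - x l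

/-- the local law of the gaps of `m + 1` eigenvalues of the GOE: the integral of the Vandermonde
determinant of `0, y 1, ..., y m` over the `y` in `Ω` with `0 ≤ y 1 ≤ ... ≤ y m` -/
def goe (m : ℕ) (Ω : Set (Fin m → ℝ)) : ℝ≥0∞ :=
  ∫⁻ y in Ω ∩ {y | Monotone (Fin.cons 0 y : Fin (m + 1) → ℝ)},
    ENNReal.ofReal |(Matrix.vandermonde (Fin.cons 0 y : Fin (m + 1) → ℝ)).det|

/-- the random variable `ξ` has the bounded continuous density `ρ` -/
structure HasDensity {Ω : Type} [MeasurableSpace Ω] (P : Measure Ω) (ξ : Ω → ℝ) (ρ : ℝ → ℝ) :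
    Prop where
  meas : Measurable ξ
  cont : Continuous ρ
  nonneg : ∀ t, 0 ≤ ρ t
  bdd : ∃ B, ∀ t, ρ t ≤ B
  law : P.map ξ = volume.withDensity fun t => ENNReal.ofReal (ρ t)

/-- `ψ = ∑ a k · f k` with numbers `a k` at which the densities are positive -/
def Reachable {M : Type} [TopologicalSpace M] [CompactSpace M] (f : ℕ → C(M, ℝ)) (ρ : ℕ → ℝ → ℝ)
    (ψ : C(M, ℝ)) : Prop :=
  ∃ a : ℕ → ℝ, Tendsto (fun n => ∑ k ∈ Finset.range n, a k • f k) atTop (𝓝 ψ) ∧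
    ∀ k, 0 < ρ k (a k)

/-- `χ` is a bounded continuous nonnegative function which vanishes outside `U` -/
structure IsTest {M : Type} [TopologicalSpace M] [CompactSpace M] (U : Set C(M, ℝ))
    (χ : C(M, ℝ) → ℝ) : Prop where
  cont : Continuous χ
  nonneg : ∀ η, 0 ≤ χ η
  bdd : ∃ B, ∀ η, χ η ≤ B
  supp : ∀ η, η ∉ U → χ η = 0

/-- the law of the gaps of the levels `l, ..., l + m` of the metric `exp φ · g`, weighted by `χ`,
rescaled by `s → 0` and divided by `s ^ (m (m + 3) / 2)`, converges to `c` times the law of the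
GOE, for bounded Borel sets -/
def Law {Ω M : Type} [MeasurableSpace Ω] [TopologicalSpace M] [CompactSpace M] (P : Measure Ω)
    (φ : Ω → C(M, ℝ)) (x : C(M, ℝ) → ℕ → ℝ) (l m : ℕ) (χ : C(M, ℝ) → ℝ) (c : ℝ≥0∞) : Prop :=
  ∀ Γ : Set (Fin m → ℝ), MeasurableSet Γ → Bornology.IsBounded Γ →
    Tendsto (fun s : ℝ => (∫⁻ ω in {ω | s⁻¹ • gaps (x (φ ω)) l m ∈ Γ},
      ENNReal.ofReal (χ (φ ω)) ∂P) / ENNReal.ofReal (s ^ (m * (m + 3) / 2)))
      (𝓝[>] 0) (𝓝 (c * goe m Γ))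

theorem result (M : Type) [MetricSpace M] [CompactSpace M] [ConnectedSpace M] [MeasurableSpace M]
    [BorelSpace M] (μ : Measure M) (D : Data M) (hD : D.IsSurf μ) (hiso : Isothermal D)
    (Ω : Type) [MeasurableSpace Ω] (P : Measure Ω) [IsProbabilityMeasure P]
    (f : ℕ → C(M, ℝ)) (hf : Dense (Submodule.span ℝ (range f) : Set C(M, ℝ)))
    (ξ : ℕ → Ω → ℝ) (hind : iIndepFun ξ P) (ρ : ℕ → ℝ → ℝ) (hρ : ∀ k, HasDensity P (ξ k) (ρ k))
    (φ : Ω → C(M, ℝ))
    (hφ : ∀ᵐ ω ∂P, Tendsto (fun n => ∑ k ∈ Finset.range n, ξ k ω • f k) atTop (𝓝 (φ ω))) :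
    (∀ ψ : C(M, ℝ), (surf D ψ).IsSurf (area μ ψ) ∧ ∃! x, IsUnfolded D μ ψ x) ∧
    ∀ x : C(M, ℝ) → ℕ → ℝ, (∀ ψ, IsUnfolded D μ ψ (x ψ)) →
      (∀ ψ, Tendsto (fun T : ℝ => ({k : ℕ | x ψ k ≤ T}.ncard : ℝ) / T) atTop (𝓝 1)) ∧
      (∀ l : ℕ, ∀ K : Set C(M, ℝ), IsCompact K → ∃ C : ℝ, ∀ s : ℝ, 0 < s →
        P {ω | φ ω ∈ K ∧ x (φ ω) (l + 1) - x (φ ω) l ≤ s} ≤ ENNReal.ofReal (C * s ^ 2)) ∧
      (∀ l : ℕ, ∀ K : Set C(M, ℝ), IsCompact K → ∃ O, IsOpen O ∧ K ⊆ O ∧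
        ∀ χ : C(M, ℝ) → ℝ, IsTest O χ → ∃ c : ℝ≥0∞, c ≠ ⊤ ∧
          ((∃ ψ, 0 < χ ψ ∧ Reachable f ρ ψ ∧ IsCluster (x ψ) l 1) → 0 < c) ∧
          Law P φ x l 1 χ c) ∧
      ((∃ R : ℝ, ∀ k, ∀ᵐ ω ∂P, |ξ k ω| ≤ R) → (Summable fun k => ‖f k‖) →
        ∀ (l : ℕ) (χ : C(M, ℝ) → ℝ), IsTest univ χ → ∃ c : ℝ≥0∞, c ≠ ⊤ ∧
          ((∃ ψ, 0 < χ ψ ∧ Reachable f ρ ψ ∧ IsCluster (x ψ) l 1) → 0 < c) ∧
          Law P φ x l 1 χ c) ∧
      ∀ (ψ : C(M, ℝ)) (l m : ℕ), 1 ≤ m → IsCluster (x ψ) l m → (m ≤ 2 ∨ Free D μ ψ l m) →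
        ∃ U ∈ 𝓝 ψ, ∀ χ : C(M, ℝ) → ℝ, IsTest U χ → ∃ c : ℝ≥0∞, c ≠ ⊤ ∧
          (0 < χ ψ → Reachable f ρ ψ → 0 < c) ∧ Law P φ x l m χ c := by
  have hbr : ∀ {φ : C(M, ℝ)} {x : ℕ → ℝ}, IsUnfolded D μ φ x →
      Pool.Agent.Results.MP_a825e8_mp.SurfacesLimitStatistics.IsUnfolded D μ φ x := by
    rintro φ x ⟨u, lam, hu, hx⟩
    exact ⟨u, lam, ⟨hu.eig, hu.mono, hu.orth, hu.total⟩, hx⟩
  have hbr' : ∀ {φ : C(M, ℝ)} {x : ℕ → ℝ},
      Pool.Agent.Results.MP_a825e8_mp.SurfacesLimitStatistics.IsUnfolded D μ φ x →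
      IsUnfolded D μ φ x := by
    rintro φ x ⟨u, lam, hu, hx⟩
    exact ⟨u, lam, ⟨hu.eig, hu.mono, hu.orth, hu.total⟩, hx⟩
  have harea : ∀ φ : C(M, ℝ), (area μ φ).real univ = ∫ x, Real.exp (φ x) ∂μ := by
    intro φ
    have hm : Measurable fun x => Real.exp (φ x) :=
      (Real.continuous_exp.comp φ.continuous).measurable
    have h5 : (area μ φ).real univ = ∫ x, (1 : ℝ) ∂(wm μ fun x => Real.exp (φ x)) := by
      simp [area]
    rw [h5, integral_wm μ _ hm fun x => (Real.exp_pos _).le]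
    simp
  obtain ⟨X₂, hXc₂, hXm₂, hXe₂, hmain₂⟩ := Pool.Agent.L5helper74.QR.surf2 μ D hD hiso
  obtain ⟨X, hXc, hXm, hXe, h01, hmain, hmain₄⟩ := Pool.Agent.L5helper74.QR.surf7 μ D hD hiso
  obtain ⟨X₈, -, -, hXe₈, -, hmain₈⟩ := Pool.Agent.L5helper74.QR.surf8 μ D hD hiso
  have hX₈ : X₈ = X := by
    funext j ψ
    obtain ⟨u, lam, h⟩ := Pool.Agent.Y264.QR.tEx M μ D hD inferInstance ψ
    rw [hXe ψ u lam h, hXe₈ ψ u lam h]
  rw [hX₈] at hmain₈
  -- the series converges everywhere without loss of generality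
  have hξ : ∀ k, Measurable (ξ k) := fun k => (hρ k).meas
  obtain ⟨ξ', φ', hξ', hind', hφ', hae⟩ := Pool.Agent.L5helper74.QR.ae_red hξ hind hφ
  have hPξ : ∀ (k : ℕ) (A : Set ℝ), P {ω | ξ' k ω ∈ A} = P {ω | ξ k ω ∈ A} := by
    intro k A
    refine measure_congr ?_
    filter_upwards [hae] with ω hω
    exact propext (by
      show ξ' k ω ∈ A ↔ ξ k ω ∈ A
      rw [hω.2 k])
  have hlaw : ∀ k, P.map (ξ' k) = volume.withDensity fun t => ENNReal.ofReal (ρ k t) := by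
    intro k
    rw [← (hρ k).law]
    refine Measure.map_congr ?_
    filter_upwards [hae] with ω hω
    exact hω.2 k
  have hPφ : ∀ p : C(M, ℝ) → Prop, P {ω | p (φ ω)} = P {ω | p (φ' ω)} := by
    intro p
    refine measure_congr ?_
    filter_upwards [hae] with ω hω
    exact propext (by
      show p (φ ω) ↔ p (φ' ω)
      rw [hω.1])
  have hEφ : ∀ (p : C(M, ℝ) → Prop) (χ : C(M, ℝ) → ℝ),
      ∫⁻ ω in {ω | p (φ ω)}, ENNReal.ofReal (χ (φ ω)) ∂P =
        ∫⁻ ω in {ω | p (φ' ω)}, ENNReal.ofReal (χ (φ' ω)) ∂P := by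
    intro p χ
    have h1 : {ω | p (φ ω)} =ᵐ[P] {ω | p (φ' ω)} := by
      filter_upwards [hae] with ω hω
      exact propext (by
        show p (φ ω) ↔ p (φ' ω)
        rw [hω.1])
    rw [setLIntegral_congr h1]
    refine lintegral_congr_ae (ae_restrict_of_ae ?_)
    filter_upwards [hae] with ω hω
    rw [hω.1]
  have hφm' : @Measurable _ _ _ (borel _) φ' := by
    let _ : MeasurableSpace C(M, ℝ) := borel _
    have : BorelSpace C(M, ℝ) := ⟨rfl⟩
    have h1 := Pool.Agent.L5helper74.QR.Yr_meas' hξ' hφ' ∅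
    have h2 : Pool.Agent.L5helper74.QR.Yr ξ' f φ' ∅ = φ' := by
      funext ω
      simp [Pool.Agent.L5helper74.QR.Yr]
    rwa [h2] at h1
  have hden : ∀ k, ∃ C : ℝ≥0∞, C ≠ ⊤ ∧ ∀ A : Set ℝ, MeasurableSet A →
      P {ω | ξ' k ω ∈ A} ≤ C * volume A := by
    intro k
    obtain ⟨B, hB⟩ := (hρ k).bdd
    refine ⟨ENNReal.ofReal B, ENNReal.ofReal_ne_top, fun A hA => ?_⟩
    have h3 : P {ω | ξ' k ω ∈ A} = P.map (ξ' k) A := (Measure.map_apply (hξ' k) hA).symm
    rw [h3, hlaw k, withDensity_apply _ hA, ← setLIntegral_const]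
    exact setLIntegral_mono' hA fun t _ => ENNReal.ofReal_le_ofReal (hB t)
  have hcomp := hmain P ξ' f φ' hξ' hind' hφ' hf hden
  refine ⟨fun φ => ?_, fun x hx => ?_⟩
  · obtain ⟨h1, y, h2, h3, h4⟩ := Pool.Agent.L5helper74.RM.basic M μ D hD φ
    exact ⟨h1, y, hbr' h2, fun z hz => h4 z (hbr hz)⟩
  have hxX : ∀ ψ j, x ψ j = X j ψ := by
    intro ψ j
    obtain ⟨u, lam, hu, hxk⟩ := hx ψ
    rw [hxk, harea, hXe ψ u lam ⟨hu.eig, hu.mono, hu.orth, hu.total⟩ j]
  have hxX₂ : ∀ ψ j, x ψ j = X₂ j ψ := by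
    intro ψ j
    obtain ⟨u, lam, hu, hxk⟩ := hx ψ
    rw [hxk, harea, hXe₂ ψ u lam ⟨hu.eig, hu.mono, hu.orth, hu.total⟩ j]
  have hgoe : ∀ (m : ℕ) (Γ : Set (Fin m → ℝ)), goe m Γ =
      ∫⁻ y in Γ ∩ {y | Monotone (Fin.cons 0 y : Fin (m + 1) → ℝ)},
        ENNReal.ofReal (Pool.Agent.L5helper74.LR.Vd m y) := by
    intro m Γ
    simp only [goe, Pool.Agent.L5helper74.LR.Vd_det]
  have hgx : ∀ (l m : ℕ) (ψ : C(M, ℝ)), gaps (x ψ) l m =
      fun i : Fin m => X₂ (l + (i + 1)) ψ - X₂ l ψ := by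
    intro l m ψ
    funext i
    simp only [gaps, hxX₂]
  have hgx' : ∀ (l m : ℕ) (ψ : C(M, ℝ)), gaps (x ψ) l m =
      fun i : Fin m => X (l + (i + 1)) ψ - X l ψ := by
    intro l m ψ
    funext i
    simp only [gaps, hxX]
  have hgm : ∀ (l m : ℕ) (Γ : Set (Fin m → ℝ)), MeasurableSet Γ → ∀ s : ℝ,
      MeasurableSet {ω | s⁻¹ • gaps (x (φ' ω)) l m ∈ Γ} := by
    intro l m Γ hΓ s
    let _ : MeasurableSpace C(M, ℝ) := borel _
    have : BorelSpace C(M, ℝ) := ⟨rfl⟩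
    simp only [hgx]
    have h4 : Continuous fun ψ : C(M, ℝ) =>
        s⁻¹ • fun i : Fin m => X₂ (l + (i + 1)) ψ - X₂ l ψ :=
      (continuous_pi fun i => (hXc₂ _).sub (hXc₂ _)).const_smul s⁻¹
    exact hφm' (h4.measurable hΓ)
  have hfin : ∀ (l : ℕ) (χ : C(M, ℝ) → ℝ) (c : ℝ≥0∞), c ≠ ⊤ →
      (∀ Γ : Set (Fin 1 → ℝ), MeasurableSet Γ → Bornology.IsBounded Γ →
        Tendsto (fun s : ℝ => (∫⁻ ω,
          {ω | s⁻¹ • (fun i : Fin 1 => X (l + (i + 1)) (φ' ω) - X l (φ' ω)) ∈ Γ}.indicator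
          (fun ω => ENNReal.ofReal (χ (φ' ω))) ω ∂P) / ENNReal.ofReal (s ^ (1 * (1 + 3) / 2)))
          (𝓝[>] 0) (𝓝 (c * volume (Pool.Agent.L5helper74.QR.Wg 1 Γ)))) →
      (∀ (ψ : C(M, ℝ)) (a : ℕ → ℝ), 0 < χ ψ →
        Tendsto (fun n => ∑ k ∈ Finset.range n, a k • f k) atTop (𝓝 ψ) →
        (∀ k, 0 < ρ k (a k)) → X l ψ = X (l + 1) ψ → X (l - 1) ψ < X l ψ →
        X (l + 1) ψ < X (l + 1 + 1) ψ → c ≠ 0) →
      ∃ c : ℝ≥0∞, c ≠ ⊤ ∧
        ((∃ ψ, 0 < χ ψ ∧ Reachable f ρ ψ ∧ IsCluster (x ψ) l 1) → 0 < c) ∧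
        Law P φ x l 1 χ c := by
    intro l χ c hc hct hcp
    obtain ⟨κ, hκ0, hκt, hκ⟩ := Pool.Agent.L5helper74.QR.weyl_eq 1
    refine ⟨c * κ, ENNReal.mul_ne_top hc hκt, ?_, fun Γ hΓ hΓb => ?_⟩
    · rintro ⟨ψ, hψ, ⟨a, ha, hρa⟩, hcl⟩
      refine pos_iff_ne_zero.2 (mul_ne_zero (hcp ψ a hψ ha hρa ?_ ?_ ?_) hκ0)
      · rw [← hxX, ← hxX]
        exact ((hcl (l + 1)).2 ⟨Nat.le_add_right _ _, le_rfl⟩).symm
      · have h1 := hXm ψ (l - 1) l (Nat.sub_le l 1)
        refine lt_of_le_of_ne h1 fun h2 => ?_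
        rw [← hxX, ← hxX] at h2
        have h3 := (hcl (l - 1)).1 h2
        have hl0 : l = 0 := by omega
        have h4 := (hcl (l + 1)).2 ⟨Nat.le_succ l, by omega⟩
        rw [hl0, hxX, hxX] at h4
        exact absurd h4 (h01 ψ).ne'
      · have h1 := hXm ψ (l + 1) (l + 1 + 1) (Nat.le_succ _)
        refine lt_of_le_of_ne h1 fun h2 => ?_
        rw [← hxX, ← hxX] at h2
        have h3 := (hcl (l + 1)).2 ⟨Nat.le_add_right _ _, le_rfl⟩
        have h4 := (hcl (l + 1 + 1)).1 (by rw [← h2, h3])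
        omega
    · have h1 := hct Γ hΓ hΓb
      rw [hκ Γ hΓ, ← mul_assoc, ← hgoe] at h1
      refine h1.congr fun s => ?_
      have h2 := hEφ (fun ψ => s⁻¹ • gaps (x ψ) l 1 ∈ Γ) χ
      rw [h2, ← lintegral_indicator (hgm l 1 Γ hΓ s)]
      simp only [hgx']
  refine ⟨fun b => ?_, fun l K hK => ?_, fun l K hK => ?_, fun hR hfs l χ hχ => ?_,
    fun ψ l m hm hcl hfree => ?_⟩
  · obtain ⟨h1, y, h2, h3, h5⟩ := Pool.Agent.L5helper74.RM.basic M μ D hD b
    rw [h5 (x b) (hbr (hx b))]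
    exact h3
  · obtain ⟨C, -, hC⟩ := hcomp 1 (Or.inl rfl) l K hK
    refine ⟨C, fun s hs => ?_⟩
    have h1 := hPφ fun ψ => ψ ∈ K ∧ x ψ (l + 1) - x ψ l ≤ s
    rw [h1]
    simp only [hxX]
    exact hC s hs
  · obtain ⟨O, hO, hKO, h⟩ := hmain₈ P ξ' f φ' ρ hξ' hind' hφ' hf (fun k => (hρ k).cont)
      (fun k => (hρ k).nonneg) (fun k => (hρ k).bdd) hlaw 1 (Or.inl rfl) l K hK
    refine ⟨O, hO, hKO, fun χ hχ => ?_⟩
    obtain ⟨c, hc, hct, hcp⟩ := h χ hχ.cont hχ.nonneg hχ.bdd hχ.supp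
    exact hfin l χ c hc hct hcp
  · obtain ⟨R, hR⟩ := hR
    obtain ⟨K, hKc, hK2⟩ := Pool.Agent.L5helper74.QR.cube hfs R
    have hφK : ∀ᵐ ω ∂P, φ' ω ∈ K := by
      filter_upwards [ae_all_iff.2 hR, hφ, hae] with ω h1 h2 h3
      rw [h3.1]
      exact hK2 (fun k => ξ k ω) (φ ω) h1 h2
    obtain ⟨c, hc, hct, hcp⟩ := hmain₄ P ξ' f φ' ρ hξ' hind' hφ' hf (fun k => (hρ k).cont)
      (fun k => (hρ k).nonneg) (fun k => (hρ k).bdd) hlaw K hKc hφK 1 (Or.inl rfl) l χ hχ.cont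
      hχ.nonneg hχ.bdd
    exact hfin l χ c hc hct hcp
  · have hlam : ∀ (u : ℕ → M → ℝ) (lam : ℕ → ℝ), IsEigenbasis (surf D ψ) (area μ ψ) u lam →
        ∀ j, lam j = lam l ↔ l ≤ j ∧ j ≤ l + m := by
      intro u lam hu j
      have h1 : ∀ j, x ψ j = (∫ x, Real.exp (ψ x) ∂μ) / (4 * π) * lam j := by
        intro j
        rw [hxX, hXe ψ u lam ⟨hu.eig, hu.mono, hu.orth, hu.total⟩ j]
      have hne : (∫ x, Real.exp (ψ x) ∂μ) / (4 * π) ≠ 0 := by
        intro h0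
        have h2 : ∀ j, x ψ j = x ψ l := fun j => by rw [h1, h1, h0, zero_mul, zero_mul]
        have h3 := (hcl (l + m + 1)).1 (h2 _)
        omega
      rw [← hcl j, h1, h1, mul_right_inj' hne]
    obtain ⟨u, lam, hu, hNR⟩ : ∃ (u : ℕ → M → ℝ) (lam : ℕ → ℝ),
        IsEigenbasis (surf D ψ) (area μ ψ) u lam ∧ Pool.Agent.L5helper74.LR.NR μ u l m := by
      rcases hfree with hm2 | ⟨u, lam, hu, hS⟩
      · obtain ⟨u, lam, hu, -⟩ := hx ψ
        refine ⟨u, lam, hu, ?_⟩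
        rcases (by omega : m = 1 ∨ m = 2) with rfl | rfl
        · exact Pool.Agent.L5helper74.LR.nr_one hD hiso ψ u lam
            ⟨hu.eig, hu.mono, hu.orth, hu.total⟩
            (((hlam u lam hu) (l + 1)).2 ⟨Nat.le_succ l, le_rfl⟩).symm
        · exact Pool.Agent.L5helper74.QR.nr_two hD hiso ψ u lam
            ⟨hu.eig, hu.mono, hu.orth, hu.total⟩ (l := l) fun k =>
              ((hlam u lam hu) (l + k)).2 ⟨Nat.le_add_right _ _, by omega⟩
      · refine ⟨u, lam, hu, fun S h1 h2 h3 => hS S ?_ h2 h3⟩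
        ext i j
        exact h1 j i
    obtain ⟨U, hU, hUg⟩ := hmain₂ P ξ' f φ' ρ hξ' hind' hφ' hf (fun k => (hρ k).cont)
      (fun k => (hρ k).nonneg) (fun k => (hρ k).bdd) hlaw ψ l m u lam
      ⟨hu.eig, hu.mono, hu.orth, hu.total⟩ hm (hlam u lam hu) hNR
    obtain ⟨κ, hκ0, hκt, hκ⟩ := Pool.Agent.L5helper74.QR.weyl_eq m
    refine ⟨U, hU, fun χ hχ => ?_⟩
    obtain ⟨c, hc, hcp, hct⟩ := hUg χ hχ.cont hχ.nonneg hχ.bdd hχ.supp
    refine ⟨c * κ, ENNReal.mul_ne_top hc hκt, fun h1 h2 => ?_, fun Γ hΓ hΓb => ?_⟩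
    · obtain ⟨a, ha, hρa⟩ := h2
      exact pos_iff_ne_zero.2 (mul_ne_zero (hcp h1 a ha hρa) hκ0)
    · have h1 := hct Γ hΓ hΓb
      rw [hκ Γ hΓ, ← mul_assoc, ← hgoe] at h1
      refine h1.congr fun s => ?_
      have h2 := hEφ (fun ψ => s⁻¹ • gaps (x ψ) l m ∈ Γ) χ
      rw [h2, ← lintegral_indicator (hgm l m Γ hΓ s)]
      simp only [hgx]

end Pool.Agent.Results.MP_a825e8_mp.LevelRepulsion
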