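import Pool.Agent.L5helper74.RJ.Surf
import Pool.Agent.L5helper74.LR.Top
import Pool.Agent.L5helper74.QR.Main8
import Pool.Agent.L5helper74.QR.Wq3
import Pool.Agent.L5helper74.QR.Ae

/-!
# Random metrics: three consecutive levels and the exact law of the GOE

Let `(M, g)` be a closed connected surface with a continuous Riemannian metric and isothermal charts
(every smooth metric on a surface has such charts). Let `f 0, f 1, ...` be continuous functions
whose span is dense in `C (M)` and let `ξ 0, ξ 1, ...` be independent random variables with bounded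
continuous densities such that the series `φ = ∑ ξ k · f k` converges uniformly almost surely. Let
`x 0 < x 1 ≤ x 2 ≤ ...` be the unfolded levels of the random metric `exp φ · g`.

Three consecutive levels repel each other as the eigenvalues of the GOE: for every `l` and every
compact set `K` of functions `P (φ ∈ K, x (l + 2) - x l ≤ s) ≤ C s ⁵` for all `s > 0`, whatever the
multiplicities of the levels of the metrics in `K` are. Moreover there is an open set `O` which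
contains `K` such that the joint law of the two consecutive spacings `x (l + 1) - x l` and
`x (l + 2) - x (l + 1)` on `O` (that is, weighted by any bounded continuous function `χ ≥ 0` of the
metric which vanishes outside `O`), rescaled by `s → 0` and divided by `s ⁵`, converges to a finite
constant times the law of the GOE, whose density is `a b (a + b)`. The constant is positive if `χ`
is positive at some metric in the support with a triple level `x l = x (l + 1) = x (l + 2)`. If the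
`ξ k` are bounded and `∑ ‖f k‖ < ∞`, this holds for the set `O` of all functions.

The new ingredient, compared with two levels, is that three eigenfunctions of one eigenvalue on a
surface satisfy no homogeneous quadratic relation (for four this fails, as flat tori show). One
reduces this to `u ² + v ² = w ²`, which is excluded by means of the Hopf differentials `(∂ u) ²` of
the eigenfunctions and of unique continuation, for metrics which are only continuous. A multiscale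
analysis of the effective matrix of a cluster of levels then shows that the small triples with a
fourth level nearby do not contribute.
-/

set_option autoImplicit false
set_option synthInstance.maxHeartbeats 400000

open Set Filter Topology MeasureTheory ProbabilityTheory
open scoped Real ENNReal
open Pool.Agent.Y262.QE

noncomputable section

namespace Pool.Agent.Results.MP_a825e8_mp.ThreeLevels

/-- `u 0, u 1, ...` is an orthonormal basis of `L² (μ)` which consists of eigenfunctions of the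
Laplacian of the surface `D` with the area `μ`; the eigenvalues `lam 0 ≤ lam 1 ≤ ...` are ordered -/
structure IsEigenbasis {M : Type} [MeasurableSpace M] (D : Data M) (μ : Measure M)
    (u : ℕ → M → ℝ) (lam : ℕ → ℝ) : Prop where
  eig : ∀ j, D.IsEig μ (lam j) (u j)
  mono : Monotone lam
  orth : ∀ i j, ∫ x, u i x * u j x ∂μ = if i = j then 1 else 0
  total : ∀ f : M → ℝ, MemLp f 2 μ → (∀ j, ∫ x, f x * u j x ∂μ = 0) → f =ᵐ[μ] 0

/-- the surface with the metric `exp φ · g` -/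
def surf {M : Type} [TopologicalSpace M] (D : Data M) (φ : C(M, ℝ)) : Data M :=
  D.conf fun x => Real.exp (φ x)

/-- the area of the metric `exp φ · g` -/
def area {M : Type} [TopologicalSpace M] [MeasurableSpace M] (μ : Measure M) (φ : C(M, ℝ)) :
    Measure M :=
  wm μ fun x => Real.exp (φ x)

/-- all the charts of the surface are isothermal: in the chart `i` the metric at `z` is
`‖D.A i z v‖ ²`, and it is a multiple of the flat metric `‖v‖ ²` -/
def Isothermal {M : Type} (D : Data M) : Prop :=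
  ∀ i, ∀ z ∈ D.T i, ∃ c : ℝ, ∀ v, ‖D.A i z v‖ = c * ‖v‖

/-- `x` is the sequence of the unfolded levels of the metric `exp φ · g`: the eigenvalues, listed
with multiplicity, times the total area divided by `4 π` -/
def IsUnfolded {M : Type} [TopologicalSpace M] [MeasurableSpace M] (D : Data M) (μ : Measure M)
    (φ : C(M, ℝ)) (x : ℕ → ℝ) : Prop :=
  ∃ (u : ℕ → M → ℝ) (lam : ℕ → ℝ), IsEigenbasis (surf D φ) (area μ φ) u lam ∧
    ∀ k, x k = (area μ φ).real univ / (4 * π) * lam k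

/-- `x l = x (l + 1) = x (l + 2)` is a level of multiplicity three -/
def IsTriple (x : ℕ → ℝ) (l : ℕ) : Prop :=
  ∀ j, x j = x l ↔ l ≤ j ∧ j ≤ l + 2

/-- the local law of two consecutive spacings of the GOE: the integral of `a b (a + b)` over the
`(a, b)` in `Γ` with `a ≥ 0` and `b ≥ 0` -/
def goe (Γ : Set (ℝ × ℝ)) : ℝ≥0∞ :=
  ∫⁻ p in Γ ∩ {p | 0 ≤ p.1 ∧ 0 ≤ p.2}, ENNReal.ofReal (p.1 * p.2 * (p.1 + p.2))

/-- the random variable `ξ` has the bounded continuous density `ρ` -/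
structure HasDensity {Ω : Type} [MeasurableSpace Ω] (P : Measure Ω) (ξ : Ω → ℝ) (ρ : ℝ → ℝ) :
    Prop where
  meas : Measurable ξ
  cont : Continuous ρ
  nonneg : ∀ t, 0 ≤ ρ t
  bdd : ∃ B, ∀ t, ρ t ≤ B
  law : P.map ξ = volume.withDensity fun t => ENNReal.ofReal (ρ t)

/-- `ψ = ∑ a k · f k` with numbers `a k` at which the densities are positive -/
def Reachable {M : Type} [TopologicalSpace M] [CompactSpace M] (f : ℕ → C(M, ℝ)) (ρ : ℕ → ℝ → ℝ)
    (ψ : C(M, ℝ)) : Prop :=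
  ∃ a : ℕ → ℝ, Tendsto (fun n => ∑ k ∈ Finset.range n, a k • f k) atTop (𝓝 ψ) ∧
    ∀ k, 0 < ρ k (a k)

/-- `χ` is a bounded continuous nonnegative function which vanishes outside `O` -/
structure IsTest {M : Type} [TopologicalSpace M] [CompactSpace M] (O : Set C(M, ℝ))
    (χ : C(M, ℝ) → ℝ) : Prop where
  cont : Continuous χ
  nonneg : ∀ η, 0 ≤ χ η
  bdd : ∃ B, ∀ η, χ η ≤ B
  supp : ∀ η, η ∉ O → χ η = 0

/-- the joint law of the two consecutive spacings of the levels `l, l + 1, l + 2` of the metric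
`exp φ · g`, weighted by `χ`, rescaled by `s → 0` and divided by `s ⁵`, converges to `c` times the
law of the GOE, for bounded Borel sets -/
def Law {Ω M : Type} [MeasurableSpace Ω] [TopologicalSpace M] [CompactSpace M] (P : Measure Ω)
    (φ : Ω → C(M, ℝ)) (x : C(M, ℝ) → ℕ → ℝ) (l : ℕ) (χ : C(M, ℝ) → ℝ) (c : ℝ≥0∞) : Prop :=
  ∀ Γ : Set (ℝ × ℝ), MeasurableSet Γ → Bornology.IsBounded Γ →
    Tendsto (fun s : ℝ => (∫⁻ ω in {ω | s⁻¹ • (x (φ ω) (l + 1) - x (φ ω) l,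
      x (φ ω) (l + 2) - x (φ ω) (l + 1)) ∈ Γ}, ENNReal.ofReal (χ (φ ω)) ∂P) /
      ENNReal.ofReal (s ^ 5)) (𝓝[>] 0) (𝓝 (c * goe Γ))

/-- the pair of consecutive spacings as a function of the distances from the first level -/
def toPair (y : Fin 2 → ℝ) : ℝ × ℝ := (y 0, -y 0 + y 1)

lemma toPair_mp : MeasurePreserving toPair volume volume :=
  (measurePreserving_prod_neg_add (volume : Measure ℝ) (volume : Measure ℝ)).comp
    (volume_preserving_finTwoArrow ℝ)

lemma goe_eq {Γ : Set (ℝ × ℝ)} (hΓ : MeasurableSet Γ) :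
    ∫⁻ y in (toPair ⁻¹' Γ) ∩ {y | Monotone (Fin.cons 0 y : Fin 3 → ℝ)},
      ENNReal.ofReal (Pool.Agent.L5helper74.LR.Vd 2 y) = goe Γ := by
  have h1 : (toPair ⁻¹' Γ) ∩ {y | Monotone (Fin.cons 0 y : Fin 3 → ℝ)} =
      toPair ⁻¹' (Γ ∩ {p | 0 ≤ p.1 ∧ 0 ≤ p.2}) := by
    ext y
    have h2 : Monotone (Fin.cons 0 y : Fin 3 → ℝ) ↔ 0 ≤ y 0 ∧ 0 ≤ -y 0 + y 1 := by
      rw [Fin.monotone_iff_le_succ, Fin.forall_fin_two]
      have e0 : (Fin.cons 0 y : Fin 3 → ℝ) (Fin.castSucc 0) = 0 := rfl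
      have e1 : (Fin.cons 0 y : Fin 3 → ℝ) (Fin.succ 0) = y 0 := rfl
      have e2 : (Fin.cons 0 y : Fin 3 → ℝ) (Fin.castSucc 1) = y 0 := rfl
      have e3 : (Fin.cons 0 y : Fin 3 → ℝ) (Fin.succ 1) = y 1 := rfl
      rw [e0, e1, e2, e3]
      exact and_congr_right fun _ => ⟨fun h => by linarith, fun h => by linarith⟩
    exact and_congr_right fun _ => h2
  have hm : MeasurableSet (Γ ∩ {p : ℝ × ℝ | 0 ≤ p.1 ∧ 0 ≤ p.2}) :=
    hΓ.inter ((measurableSet_le measurable_const measurable_fst).inter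
      (measurableSet_le measurable_const measurable_snd))
  rw [h1]
  unfold goe
  have hf : Measurable fun p : ℝ × ℝ => ENNReal.ofReal (p.1 * p.2 * (p.1 + p.2)) := by
    fun_prop
  rw [← toPair_mp.setLIntegral_comp_preimage hm hf]
  refine setLIntegral_congr_fun (toPair_mp.measurable hm) fun y hy => ?_
  obtain ⟨-, h3, h4⟩ := hy
  have h5 : 0 ≤ y 0 := h3
  have h6 : 0 ≤ -y 0 + y 1 := h4
  have h7 : Pool.Agent.L5helper74.LR.Vd 2 y = y 0 * (-y 0 + y 1) * (y 0 + (-y 0 + y 1)) := by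
    rw [Pool.Agent.L5helper74.LR.Vd_det, Matrix.det_fin_three]
    simp only [Matrix.vandermonde_apply]
    have e0 : (Fin.cons 0 y : Fin 3 → ℝ) 0 = 0 := rfl
    have e1 : (Fin.cons 0 y : Fin 3 → ℝ) 1 = y 0 := rfl
    have e2 : (Fin.cons 0 y : Fin 3 → ℝ) 2 = y 1 := rfl
    have f0 : ((0 : Fin 3) : ℕ) = 0 := rfl
    have f1 : ((1 : Fin 3) : ℕ) = 1 := rfl
    have f2 : ((2 : Fin 3) : ℕ) = 2 := rfl
    rw [e0, e1, e2, f0, f1, f2, abs_of_nonneg]
    · ring
    · have h8 : 0 ≤ y 0 * (-y 0 + y 1) * (y 0 + (-y 0 + y 1)) := by positivity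
      refine h8.trans_eq ?_
      ring
  show ENNReal.ofReal (Pool.Agent.L5helper74.LR.Vd 2 y) = _
  rw [h7]
  rfl

theorem result (M : Type) [MetricSpace M] [CompactSpace M] [ConnectedSpace M] [MeasurableSpace M]
    [BorelSpace M] (μ : Measure M) (D : Data M) (hD : D.IsSurf μ) (hiso : Isothermal D)
    (Ω : Type) [MeasurableSpace Ω] (P : Measure Ω) [IsProbabilityMeasure P]
    (f : ℕ → C(M, ℝ)) (hf : Dense (Submodule.span ℝ (range f) : Set C(M, ℝ)))
    (ξ : ℕ → Ω → ℝ) (hind : iIndepFun ξ P) (ρ : ℕ → ℝ → ℝ) (hρ : ∀ k, HasDensity P (ξ k) (ρ k))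
    (φ : Ω → C(M, ℝ))
    (hφ : ∀ᵐ ω ∂P, Tendsto (fun n => ∑ k ∈ Finset.range n, ξ k ω • f k) atTop (𝓝 (φ ω))) :
    (∀ ψ : C(M, ℝ), (surf D ψ).IsSurf (area μ ψ) ∧ ∃! x, IsUnfolded D μ ψ x) ∧
    ∀ x : C(M, ℝ) → ℕ → ℝ, (∀ ψ, IsUnfolded D μ ψ (x ψ)) →
      (∀ ψ, Tendsto (fun T : ℝ => ({k : ℕ | x ψ k ≤ T}.ncard : ℝ) / T) atTop (𝓝 1)) ∧
      (∀ l : ℕ, ∀ K : Set C(M, ℝ), IsCompact K → ∃ C : ℝ, ∀ s : ℝ, 0 < s →
        P {ω | φ ω ∈ K ∧ x (φ ω) (l + 2) - x (φ ω) l ≤ s} ≤ ENNReal.ofReal (C * s ^ 5)) ∧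
      (∀ l : ℕ, ∀ K : Set C(M, ℝ), IsCompact K → ∃ O, IsOpen O ∧ K ⊆ O ∧
        ∀ χ : C(M, ℝ) → ℝ, IsTest O χ → ∃ c : ℝ≥0∞, c ≠ ⊤ ∧
          ((∃ ψ, 0 < χ ψ ∧ Reachable f ρ ψ ∧ IsTriple (x ψ) l) → 0 < c) ∧ Law P φ x l χ c) ∧
      ((∃ R : ℝ, ∀ k, ∀ᵐ ω ∂P, |ξ k ω| ≤ R) → (Summable fun k => ‖f k‖) →
        ∀ (l : ℕ) (χ : C(M, ℝ) → ℝ), IsTest univ χ → ∃ c : ℝ≥0∞, c ≠ ⊤ ∧
          ((∃ ψ, 0 < χ ψ ∧ Reachable f ρ ψ ∧ IsTriple (x ψ) l) → 0 < c) ∧ Law P φ x l χ c) := by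
  have hbr : ∀ {φ : C(M, ℝ)} {x : ℕ → ℝ}, IsUnfolded D μ φ x →
      Pool.Agent.Results.MP_a825e8_mp.SurfacesLimitStatistics.IsUnfolded D μ φ x := by
    rintro φ x ⟨u, lam, hu, hx⟩
    exact ⟨u, lam, ⟨hu.eig, hu.mono, hu.orth, hu.total⟩, hx⟩
  have hbr' : ∀ {φ : C(M, ℝ)} {x : ℕ → ℝ},
      Pool.Agent.Results.MP_a825e8_mp.SurfacesLimitStatistics.IsUnfolded D μ φ x →
      IsUnfolded D μ φ x := by
    rintro φ x ⟨u, lam, hu, hx⟩
    exact ⟨u, lam, ⟨hu.eig, hu.mono, hu.orth, hu.total⟩, hx⟩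
  have harea : ∀ φ : C(M, ℝ), (area μ φ).real univ = ∫ x, Real.exp (φ x) ∂μ := by
    intro φ
    have hm : Measurable fun x => Real.exp (φ x) :=
      (Real.continuous_exp.comp φ.continuous).measurable
    have h5 : (area μ φ).real univ = ∫ x, (1 : ℝ) ∂(wm μ fun x => Real.exp (φ x)) := by
      simp [area]
    rw [h5, integral_wm μ _ hm fun x => (Real.exp_pos _).le]
    simp
  obtain ⟨X, hXc, hXm, hXe, h01, hmain, hmain₄⟩ := Pool.Agent.L5helper74.QR.surf7 μ D hD hiso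
  obtain ⟨X₈, -, -, hXe₈, -, hmain₈⟩ := Pool.Agent.L5helper74.QR.surf8 μ D hD hiso
  have hX₈ : X₈ = X := by
    funext j ψ
    obtain ⟨u, lam, h⟩ := Pool.Agent.Y264.QR.tEx M μ D hD inferInstance ψ
    rw [hXe ψ u lam h, hXe₈ ψ u lam h]
  rw [hX₈] at hmain₈
  -- the series converges everywhere without loss of generality
  have hξ : ∀ k, Measurable (ξ k) := fun k => (hρ k).meas
  obtain ⟨ξ', φ', hξ', hind', hφ', hae⟩ := Pool.Agent.L5helper74.QR.ae_red hξ hind hφ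
  have hPξ : ∀ (k : ℕ) (A : Set ℝ), P {ω | ξ' k ω ∈ A} = P {ω | ξ k ω ∈ A} := by
    intro k A
    refine measure_congr ?_
    filter_upwards [hae] with ω hω
    exact propext (by
      show ξ' k ω ∈ A ↔ ξ k ω ∈ A
      rw [hω.2 k])
  have hlaw : ∀ k, P.map (ξ' k) = volume.withDensity fun t => ENNReal.ofReal (ρ k t) := by
    intro k
    rw [← (hρ k).law]
    refine Measure.map_congr ?_
    filter_upwards [hae] with ω hω
    exact hω.2 k
  have hPφ : ∀ p : C(M, ℝ) → Prop, P {ω | p (φ ω)} = P {ω | p (φ' ω)} := by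
    intro p
    refine measure_congr ?_
    filter_upwards [hae] with ω hω
    exact propext (by
      show p (φ ω) ↔ p (φ' ω)
      rw [hω.1])
  have hEφ : ∀ (p : C(M, ℝ) → Prop) (χ : C(M, ℝ) → ℝ),
      ∫⁻ ω in {ω | p (φ ω)}, ENNReal.ofReal (χ (φ ω)) ∂P =
        ∫⁻ ω in {ω | p (φ' ω)}, ENNReal.ofReal (χ (φ' ω)) ∂P := by
    intro p χ
    have h1 : {ω | p (φ ω)} =ᵐ[P] {ω | p (φ' ω)} := by
      filter_upwards [hae] with ω hω
      exact propext (by
        show p (φ ω) ↔ p (φ' ω)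
        rw [hω.1])
    rw [setLIntegral_congr h1]
    refine lintegral_congr_ae (ae_restrict_of_ae ?_)
    filter_upwards [hae] with ω hω
    rw [hω.1]
  have hφm' : @Measurable _ _ _ (borel _) φ' := by
    let _ : MeasurableSpace C(M, ℝ) := borel _
    have : BorelSpace C(M, ℝ) := ⟨rfl⟩
    have h1 := Pool.Agent.L5helper74.QR.Yr_meas' hξ' hφ' ∅
    have h2 : Pool.Agent.L5helper74.QR.Yr ξ' f φ' ∅ = φ' := by
      funext ω
      simp [Pool.Agent.L5helper74.QR.Yr]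
    rwa [h2] at h1
  have hden : ∀ k, ∃ C : ℝ≥0∞, C ≠ ⊤ ∧ ∀ A : Set ℝ, MeasurableSet A →
      P {ω | ξ' k ω ∈ A} ≤ C * volume A := by
    intro k
    obtain ⟨B, hB⟩ := (hρ k).bdd
    refine ⟨ENNReal.ofReal B, ENNReal.ofReal_ne_top, fun A hA => ?_⟩
    have h3 : P {ω | ξ' k ω ∈ A} = P.map (ξ' k) A := (Measure.map_apply (hξ' k) hA).symm
    rw [h3, hlaw k, withDensity_apply _ hA, ← setLIntegral_const]
    exact setLIntegral_mono' hA fun t _ => ENNReal.ofReal_le_ofReal (hB t)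
  have hcomp := hmain P ξ' f φ' hξ' hind' hφ' hf hden
  refine ⟨fun φ => ?_, fun x hx => ?_⟩
  · obtain ⟨h1, y, h2, h3, h4⟩ := Pool.Agent.L5helper74.RM.basic M μ D hD φ
    exact ⟨h1, y, hbr' h2, fun z hz => h4 z (hbr hz)⟩
  have hxX : ∀ ψ j, x ψ j = X j ψ := by
    intro ψ j
    obtain ⟨u, lam, hu, hxk⟩ := hx ψ
    rw [hxk, harea, hXe ψ u lam ⟨hu.eig, hu.mono, hu.orth, hu.total⟩ j]
  have hfin : ∀ (l : ℕ) (χ : C(M, ℝ) → ℝ) (c : ℝ≥0∞), c ≠ ⊤ →
      (∀ Γ : Set (Fin 2 → ℝ), MeasurableSet Γ → Bornology.IsBounded Γ →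
        Tendsto (fun s : ℝ => (∫⁻ ω,
          {ω | s⁻¹ • (fun i : Fin 2 => X (l + (i + 1)) (φ' ω) - X l (φ' ω)) ∈ Γ}.indicator
          (fun ω => ENNReal.ofReal (χ (φ' ω))) ω ∂P) / ENNReal.ofReal (s ^ (2 * (2 + 3) / 2)))
          (𝓝[>] 0) (𝓝 (c * volume (Pool.Agent.L5helper74.QR.Wg 2 Γ)))) →
      (∀ (ψ : C(M, ℝ)) (a : ℕ → ℝ), 0 < χ ψ →
        Tendsto (fun n => ∑ k ∈ Finset.range n, a k • f k) atTop (𝓝 ψ) →
        (∀ k, 0 < ρ k (a k)) → X l ψ = X (l + 2) ψ → X (l - 1) ψ < X l ψ →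
        X (l + 2) ψ < X (l + 2 + 1) ψ → c ≠ 0) →
      ∃ c : ℝ≥0∞, c ≠ ⊤ ∧
        ((∃ ψ, 0 < χ ψ ∧ Reachable f ρ ψ ∧ IsTriple (x ψ) l) → 0 < c) ∧ Law P φ x l χ c := by
    intro l χ c hc hct hcp
    obtain ⟨κ, hκ0, hκt, hκ⟩ := Pool.Agent.L5helper74.QR.weyl_eq 2
    refine ⟨c * κ, ENNReal.mul_ne_top hc hκt, ?_, fun Γ hΓ hΓb => ?_⟩
    · rintro ⟨ψ, hψ, ⟨a, ha, hρa⟩, hcl⟩
      refine pos_iff_ne_zero.2 (mul_ne_zero (hcp ψ a hψ ha hρa ?_ ?_ ?_) hκ0)
      · rw [← hxX, ← hxX]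
        exact ((hcl (l + 2)).2 ⟨Nat.le_add_right _ _, le_rfl⟩).symm
      · have h1 := hXm ψ (l - 1) l (Nat.sub_le l 1)
        refine lt_of_le_of_ne h1 fun h2 => ?_
        rw [← hxX, ← hxX] at h2
        have h3 := (hcl (l - 1)).1 h2
        have hl0 : l = 0 := by omega
        have h4 := (hcl (l + 1)).2 ⟨Nat.le_succ l, by omega⟩
        rw [hl0, hxX, hxX] at h4
        exact absurd h4 (h01 ψ).ne'
      · have h1 := hXm ψ (l + 2) (l + 2 + 1) (Nat.le_succ _)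
        refine lt_of_le_of_ne h1 fun h2 => ?_
        rw [← hxX, ← hxX] at h2
        have h3 := (hcl (l + 2)).2 ⟨Nat.le_add_right _ _, le_rfl⟩
        have h4 := (hcl (l + 2 + 1)).1 (by rw [← h2, h3])
        omega
    · have hΓm : MeasurableSet (toPair ⁻¹' Γ) := toPair_mp.measurable hΓ
      have hΓbd : Bornology.IsBounded (toPair ⁻¹' Γ) := by
        obtain ⟨R', hR'⟩ := hΓb.exists_norm_le
        refine isBounded_iff_forall_norm_le.2 ⟨2 * max R' 0, fun y hy => ?_⟩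
        have h1 := (hR' _ hy).trans (le_max_left R' 0)
        have h0 : 0 ≤ max R' 0 := le_max_right _ _
        have h2 : |y 0| ≤ max R' 0 := (norm_fst_le (toPair y)).trans h1
        have h3 : |-y 0 + y 1| ≤ max R' 0 := (norm_snd_le (toPair y)).trans h1
        rw [pi_norm_le_iff_of_nonneg (by positivity), Fin.forall_fin_two]
        rw [abs_le] at h2 h3
        constructor
        · rw [Real.norm_eq_abs, abs_le]
          constructor <;> linarith [h2.1, h2.2]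
        · rw [Real.norm_eq_abs, abs_le]
          constructor <;> linarith [h2.1, h2.2, h3.1, h3.2]
      have h1 := hct (toPair ⁻¹' Γ) hΓm hΓbd
      rw [hκ _ hΓm, ← mul_assoc, goe_eq hΓ] at h1
      refine h1.congr fun s => ?_
      have h2 := hEφ (fun ψ => s⁻¹ • (x ψ (l + 1) - x ψ l, x ψ (l + 2) - x ψ (l + 1)) ∈ Γ) χ
      have h3 : ∀ ψ : C(M, ℝ), toPair (s⁻¹ • fun i : Fin 2 => X (l + (i + 1)) ψ - X l ψ) =
          s⁻¹ • (x ψ (l + 1) - x ψ l, x ψ (l + 2) - x ψ (l + 1)) := by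
        intro ψ
        simp only [hxX]
        have h4 : X (l + (((0 : Fin 2) : ℕ) + 1)) ψ = X (l + 1) ψ := by simp
        have h5 : X (l + (((1 : Fin 2) : ℕ) + 1)) ψ = X (l + 2) ψ := by simp
        refine Prod.ext ?_ ?_
        · show s⁻¹ * (X (l + (((0 : Fin 2) : ℕ) + 1)) ψ - X l ψ) = s⁻¹ * (X (l + 1) ψ - X l ψ)
          rw [h4]
        · show -(s⁻¹ * (X (l + (((0 : Fin 2) : ℕ) + 1)) ψ - X l ψ)) +
            s⁻¹ * (X (l + (((1 : Fin 2) : ℕ) + 1)) ψ - X l ψ) = s⁻¹ * (X (l + 2) ψ - X (l + 1) ψ)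
          rw [h4, h5]
          ring
      have h4 : MeasurableSet {ω | s⁻¹ • (x (φ' ω) (l + 1) - x (φ' ω) l,
          x (φ' ω) (l + 2) - x (φ' ω) (l + 1)) ∈ Γ} := by
        let _ : MeasurableSpace C(M, ℝ) := borel _
        have : BorelSpace C(M, ℝ) := ⟨rfl⟩
        simp only [hxX]
        have h5 : Continuous fun ψ : C(M, ℝ) =>
            s⁻¹ • (X (l + 1) ψ - X l ψ, X (l + 2) ψ - X (l + 1) ψ) :=
          (((hXc _).sub (hXc _)).prodMk ((hXc _).sub (hXc _))).const_smul s⁻¹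
        exact hφm' (h5.measurable hΓ)
      rw [h2, ← lintegral_indicator h4]
      congr 1
      refine lintegral_congr fun ω => ?_
      have h5 : {ω | s⁻¹ • (fun i : Fin 2 => X (l + (i + 1)) (φ' ω) - X l (φ' ω)) ∈
          toPair ⁻¹' Γ} = {ω | s⁻¹ • (x (φ' ω) (l + 1) - x (φ' ω) l,
          x (φ' ω) (l + 2) - x (φ' ω) (l + 1)) ∈ Γ} := by
        ext ω
        rw [mem_ofPred_eq, mem_ofPred_eq, mem_preimage, h3]
      rw [h5]
  refine ⟨fun b => ?_, fun l K hK => ?_, fun l K hK => ?_, fun hR hfs l χ hχ => ?_⟩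
  · obtain ⟨h1, y, h2, h3, h5⟩ := Pool.Agent.L5helper74.RM.basic M μ D hD b
    rw [h5 (x b) (hbr (hx b))]
    exact h3
  · obtain ⟨C, -, hC⟩ := hcomp 2 (Or.inr rfl) l K hK
    refine ⟨C, fun s hs => ?_⟩
    have h1 := hPφ fun ψ => ψ ∈ K ∧ x ψ (l + 2) - x ψ l ≤ s
    rw [h1]
    simp only [hxX]
    exact hC s hs
  · obtain ⟨O, hO, hKO, h⟩ := hmain₈ P ξ' f φ' ρ hξ' hind' hφ' hf (fun k => (hρ k).cont)
      (fun k => (hρ k).nonneg) (fun k => (hρ k).bdd) hlaw 2 (Or.inr rfl) l K hK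
    refine ⟨O, hO, hKO, fun χ hχ => ?_⟩
    obtain ⟨c, hc, hct, hcp⟩ := h χ hχ.cont hχ.nonneg hχ.bdd hχ.supp
    exact hfin l χ c hc hct hcp
  · obtain ⟨R, hR⟩ := hR
    obtain ⟨K, hKc, hK2⟩ := Pool.Agent.L5helper74.QR.cube hfs R
    have hφK : ∀ᵐ ω ∂P, φ' ω ∈ K := by
      filter_upwards [ae_all_iff.2 hR, hφ, hae] with ω h1 h2 h3
      rw [h3.1]
      exact hK2 (fun k => ξ k ω) (φ ω) h1 h2
    obtain ⟨c, hc, hct, hcp⟩ := hmain₄ P ξ' f φ' ρ hξ' hind' hφ' hf (fun k => (hρ k).cont)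
      (fun k => (hρ k).nonneg) (fun k => (hρ k).bdd) hlaw K hKc hφK 2 (Or.inr rfl) l χ hχ.cont
      hχ.nonneg hχ.bdd
    exact hfin l χ c hc hct hcp

end Pool.Agent.Results.MP_a825e8_mp.ThreeLevels
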