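import Pool.Agent.N250.SP.Surf
import Pool.Agent.Help40.BG.Loc
import Pool.Agent.Help40.BG.Heights

/-!
# Generic convergence of the local statistics is a locally uniform statement

`(M, g)` is a closed surface with a continuous Riemannian metric, `F` a topological space and
`ι : F → C(M)` a continuous map, for instance the inclusion of the space of the smooth functions `φ`
for which the metric `exp φ · g` has negative curvature and area one. The unfolded levels of
`exp (ι φ) · g` and their local statistics (nearest neighbour spacings and all `n`-point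
correlations) are those of the problem. `ν` is an arbitrary family of candidates for the limit
measures, for instance those of the GOE.

* (1) For EVERY metric: convergence along one sequence of heights whose quotients tend to one is
  enough.
* (2) In a nonempty open set of metrics the statistics of the generic metric converge to `ν` if and
  only if, for every test function and every `ε > 0`, a dense (it is automatically open) set of
  metrics has a neighbourhood in which the statistics of ALL metrics are within `ε` of `ν` at ALL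
  heights from some height on.
* (3) So, if the statistics of generic metrics converge to `ν`, then the metrics which deviate by
  more than `ε` at arbitrarily large heights form a nowhere dense (not only a meagre) set.
* (4) The statement of the question fails if and only if, for some test function, some `ε > 0` and
  some nonempty open set of metrics, deviations by more than `ε` at some large height (which may
  depend on the metric) are dense.
* (5) Alternative: there are disjoint open sets of metrics with dense union such that the statistics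
  of the generic metric of the first one converge to `ν`, in the locally uniform way of (2), and near
  every metric of the second one there is a test function for which the generic metric deviates by
  more than a fixed `ε` at arbitrarily large heights.

The start of the proof are the files `Pool/Agent/Q205/Baire` (library); the surfaces enter by
`Pool/Agent/N250/SP/Surf` (continuity of the levels in the metric, the law of Weyl).
-/

set_option autoImplicit false

open Set Filter Topology MeasureTheory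
open scoped Real ContDiff
open Pool.Agent.Y262.QE

noncomputable section

namespace Pool.Agent.Results.MP_a825e8_mp.UniformGenericConvergence

open Pool.Agent.Results.MP_a825e8_mp.SurfacesLimitStatistics (IsUnfolded statistic dim)
open Pool.Agent.Q205.Baire (Spectra LocalStat S Good nice_S)
open Pool.Agent.N250.SP (statL S_stat exists_spectra)
open Pool.Agent.Help40.BG

/-- all local statistics of the levels `x` (spacings and `n`-point correlations, all continuous test
functions with compact support) converge to `ν` -/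
def Converges (ν : ∀ a, Measure (Fin (dim a) → ℝ)) (x : ℕ → ℝ) : Prop :=
  ∀ (a : Option ℕ) (f : (Fin (dim a) → ℝ) → ℝ), Continuous f → HasCompactSupport f →
    Tendsto (fun T => statistic a f T x) atTop (𝓝 (∫ z, f z ∂(ν a)))

/-- the `φ` which have a neighbourhood in which the statistics of all `x ψ` are within `ε` of `c` at
all heights from some height on -/
def UniformlyClose {F : Type} [TopologicalSpace F] (x : F → ℕ → ℝ) (a : Option ℕ)
    (f : (Fin (dim a) → ℝ) → ℝ) (c ε : ℝ) : Set F :=
  {φ | ∃ T0 : ℝ, ∃ V ∈ 𝓝 φ, ∀ ψ ∈ V, ∀ T, T0 ≤ T → |statistic a f T (x ψ) - c| ≤ ε}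

/-- the `φ` for which the statistic of `x φ` deviates from `c` by more than `ε` at some height `T ≥ T0` -/
def DeviatesAfter {F : Type} (x : F → ℕ → ℝ) (a : Option ℕ)
    (f : (Fin (dim a) → ℝ) → ℝ) (c ε T0 : ℝ) : Set F :=
  {φ | ∃ T, T0 ≤ T ∧ ε < |statistic a f T (x φ) - c|}

/-- continuous test functions with compact support -/
def Test {a : Option ℕ} (f : (Fin (dim a) → ℝ) → ℝ) : Prop := Continuous f ∧ HasCompactSupport f

theorem mono_stat (a : Option ℕ) : Monotone (statL a).I := by
  intro N N' h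
  rcases a with _ | n
  · exact Finset.range_mono h
  · unfold statL
    dsimp only
    exact Finset.filter_subset_filter _ (Fintype.piFinset_subset _ _ fun _ => Finset.range_mono h)

theorem result (M : Type) [MetricSpace M] [CompactSpace M] [MeasurableSpace M] [BorelSpace M]
    [Nonempty M] (μ : Measure M) (D : Data M) (hD : D.IsSurf μ)
    (F : Type) [TopologicalSpace F] (ι : F → C(M, ℝ)) (hι : Continuous ι)
    (x : F → ℕ → ℝ) (hx : ∀ φ, IsUnfolded D μ (ι φ) (x φ))
    (ν : ∀ a, Measure (Fin (dim a) → ℝ)) (hν : ∀ a, IsFiniteMeasureOnCompacts (ν a)) :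
    -- (1) every metric: sequences of heights
    (∀ (φ : F) (τ : ℕ → ℝ), Tendsto τ atTop atTop →
      Tendsto (fun n => τ (n + 1) / τ n) atTop (𝓝 1) →
      (∀ (a : Option ℕ) (f : (Fin (dim a) → ℝ) → ℝ), Test f →
        Tendsto (fun n => statistic a f (τ n) (x φ)) atTop (𝓝 (∫ z, f z ∂(ν a)))) →
      Converges ν (x φ)) ∧
    -- (2) local uniformity
    (BaireSpace F → ∀ U : Set F, IsOpen U → ((∀ᶠ φ in residual F, φ ∈ U → Converges ν (x φ)) ↔
      ∀ (a : Option ℕ) (f : (Fin (dim a) → ℝ) → ℝ), Test f → ∀ ε : ℝ, 0 < ε →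
        IsOpen (UniformlyClose x a f (∫ z, f z ∂(ν a)) ε) ∧
        U ⊆ closure (UniformlyClose x a f (∫ z, f z ∂(ν a)) ε))) ∧
    -- (3) the exceptional metrics are nowhere dense
    (BaireSpace F → (∀ᶠ φ in residual F, Converges ν (x φ)) →
      ∀ (a : Option ℕ) (f : (Fin (dim a) → ℝ) → ℝ), Test f → ∀ ε : ℝ, 0 < ε →
        IsNowhereDense {φ | ∀ T0 : ℝ, φ ∈ DeviatesAfter x a f (∫ z, f z ∂(ν a)) ε T0}) ∧
    -- (4) the failure
    (BaireSpace F → ((¬ ∀ᶠ φ in residual F, Converges ν (x φ)) ↔
      ∃ (a : Option ℕ) (f : (Fin (dim a) → ℝ) → ℝ), Test f ∧ ∃ ε : ℝ, 0 < ε ∧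
        ∃ U : Set F, IsOpen U ∧ U.Nonempty ∧
          ∀ T0 : ℝ, U ⊆ closure (DeviatesAfter x a f (∫ z, f z ∂(ν a)) ε T0))) ∧
    -- (5) alternative
    ∃ U₁ U₂ : Set F, IsOpen U₁ ∧ IsOpen U₂ ∧ Disjoint U₁ U₂ ∧ Dense (U₁ ∪ U₂) ∧
      (∀ᶠ φ in residual F, φ ∈ U₁ → Converges ν (x φ)) ∧
      (∀ (a : Option ℕ) (f : (Fin (dim a) → ℝ) → ℝ), Test f → ∀ ε : ℝ, 0 < ε →
        U₁ ⊆ closure (UniformlyClose x a f (∫ z, f z ∂(ν a)) ε)) ∧
      ∀ φ ∈ U₂, ∃ (a : Option ℕ) (f : (Fin (dim a) → ℝ) → ℝ), Test f ∧ ∃ ε : ℝ, 0 < ε ∧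
        ∃ V ∈ 𝓝 φ, ∀ᶠ ψ in residual F, ψ ∈ V →
          ∀ T0 : ℝ, ψ ∈ DeviatesAfter x a f (∫ z, f z ∂(ν a)) ε T0 := by
  obtain ⟨X, hX, -⟩ := exists_spectra M μ D hD F ι hι x hx
  have hS : ∀ (a : Option ℕ) (f : (Fin (dim a) → ℝ) → ℝ) (T : ℝ) (φ : F),
      S X (statL a) f T φ = statistic a f T (x φ) := by
    intro a f T φ
    rw [S_stat, hX]
  have hG : ∀ φ, Good X dim statL ν φ ↔ Converges ν (x φ) := by
    intro φ
    unfold Good Converges
    simp only [hS]
  have hL : ∀ (a : Option ℕ) (f : (Fin (dim a) → ℝ) → ℝ) (c ε : ℝ),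
      LU (S X (statL a) f) c ε = UniformlyClose x a f c ε := by
    intro a f c ε
    unfold LU UniformlyClose
    simp only [hS]
  have hfreq : ∀ (a : Option ℕ) (f : (Fin (dim a) → ℝ) → ℝ) (c ε : ℝ) (φ : F),
      (∃ᶠ T in atTop, ε < |S X (statL a) f T φ - c|) ↔
        ∀ T0 : ℝ, φ ∈ DeviatesAfter x a f c ε T0 := by
    intro a f c ε φ
    rw [frequently_atTop]
    simp only [hS, DeviatesAfter, mem_ofPred_eq]
  have h2 : BaireSpace F → ∀ U : Set F, IsOpen U →
      ((∀ᶠ φ in residual F, φ ∈ U → Converges ν (x φ)) ↔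
      ∀ (a : Option ℕ) (f : (Fin (dim a) → ℝ) → ℝ), Test f → ∀ ε : ℝ, 0 < ε →
        IsOpen (UniformlyClose x a f (∫ z, f z ∂(ν a)) ε) ∧
        U ⊆ closure (UniformlyClose x a f (∫ z, f z ∂(ν a)) ε)) := by
    intro hB U hU
    have h := local_iff X dim statL ν hU
    simp only [hG, hL] at h
    rw [h]
    constructor
    · intro h1 a f hf ε hε
      refine ⟨?_, h1 a f hf.1 hf.2 ε hε⟩
      rw [← hL]
      exact isOpen_LU _ _ _
    · intro h1 a f hf hs ε hε
      exact (h1 a f ⟨hf, hs⟩ ε hε).2
  refine ⟨?_, h2, ?_, ?_, ?_⟩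
  · intro φ τ hτ hr hc a f hf hs
    have h := heights X (statL a) (mono_stat a) (ν a) φ hτ hr
      (fun f hf hs => by simpa only [hS] using hc a f ⟨hf, hs⟩) f hf hs
    simpa only [hS] using h
  · intro hB hgen a f hf ε hε
    have h := ((h2 hB univ isOpen_univ).1 (hgen.mono fun φ h _ => h) a f hf ε hε)
    have hsub : {φ | ∀ T0 : ℝ, φ ∈ DeviatesAfter x a f (∫ z, f z ∂(ν a)) ε T0} ⊆
        (UniformlyClose x a f (∫ z, f z ∂(ν a)) ε)ᶜ := by
      rintro φ hφ ⟨T0, V, hV, hc⟩
      obtain ⟨T, hT, hd⟩ := hφ T0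
      exact absurd (hc φ (mem_of_mem_nhds hV) T hT) (not_le.2 hd)
    have hnd : IsNowhereDense (UniformlyClose x a f (∫ z, f z ∂(ν a)) ε)ᶜ := by
      rw [IsNowhereDense, h.1.isClosed_compl.closure_eq, interior_compl, compl_empty_iff]
      exact univ_subset_iff.1 h.2
    exact hnd.mono hsub
  · intro hB
    constructor
    · intro hno
      have hno' : ¬ ∀ᶠ φ in residual F, φ ∈ (univ : Set F) → Converges ν (x φ) := fun h =>
        hno (h.mono fun φ hφ => hφ (mem_univ φ))
      rw [h2 hB univ isOpen_univ] at hno'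
      push Not at hno'
      obtain ⟨a, f, hf, ε, hε, hn⟩ := hno'
      have hop : IsOpen (UniformlyClose x a f (∫ z, f z ∂(ν a)) ε) := by
        rw [← hL]
        exact isOpen_LU _ _ _
      obtain ⟨φ, -, hφ⟩ := not_subset.1 (hn hop)
      refine ⟨a, f, hf, ε, hε, (closure (UniformlyClose x a f (∫ z, f z ∂(ν a)) ε))ᶜ,
        isClosed_closure.isOpen_compl, ⟨φ, hφ⟩, fun T0 ψ hψ => ?_⟩
      rw [mem_closure_iff]
      intro O hO hψO
      by_contra hemp
      apply hψ
      refine subset_closure ⟨T0, O, hO.mem_nhds hψO, fun χ hχ T hT => ?_⟩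
      by_contra hd
      exact hemp ⟨χ, hχ, T, hT, not_le.1 hd⟩
    · rintro ⟨a, f, hf, ε, hε, U, hU, ⟨φ, hφ⟩, hd⟩ hgen
      have h := ((h2 hB univ isOpen_univ).1 (hgen.mono fun φ h _ => h) a f hf ε hε).2 (mem_univ φ)
      obtain ⟨ψ, hψU, T0, V, hV, hc⟩ := (mem_closure_iff.1 h) U hU hφ
      obtain ⟨W, hWV, hW, hψW⟩ := mem_nhds_iff.1 hV
      obtain ⟨χ, ⟨hχ1, -⟩, T, hT, hdev⟩ := (mem_closure_iff.1 (hd T0 hψU)) (W ∩ U) (hW.inter hU)
        ⟨hψW, hψU⟩
      exact absurd (hc χ (hWV hχ1) T hT) (not_le.2 hdev)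
  · obtain ⟨U₁, U₂, h1, h2', h3, h4, h5, h6, h7⟩ := alternative_conv X dim statL ν
    refine ⟨U₁, U₂, h1, h2', h3, h4, ?_, ?_, ?_⟩
    · simpa only [hG] using h5
    · intro a f hf ε hε
      rw [← hL]
      exact h6 a f hf.1 hf.2 ε hε
    · intro φ hφ
      obtain ⟨a, f, hf, hs, ε, hε, V, hV, h8⟩ := h7 φ hφ
      refine ⟨a, f, ⟨hf, hs⟩, ε, hε, V, hV, ?_⟩
      filter_upwards [h8] with ψ h9 hψ
      exact (hfreq a f _ ε ψ).1 (h9 hψ)

end Pool.Agent.Results.MP_a825e8_mp.UniformGenericConvergence
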